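import Pool.Agent.Helper446.Comp

/-!
# Computable families of blocks

Given countably many computable functions `F m` with bounded fibres, there are computable sequences
of finite blocks `b m`, each block of `b (m + 1)` is the concatenation of two blocks of `b m`, such that
the number of elements which are mapped by `F m` into (a copy of) a block of `b (m + 1)` does not
depend on the block.
-/

set_option autoImplicit false

namespace Pool.Agent.R624.Blk

open Pool.Agent.Helper446
open Pool.Agent.Helper446.RE (cid cconst ccomp cfst csnd cpair cadd csub cmul cmin cmax csucc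
  cappend ccons clength cgetElem cencode cdecode csome cisSome cnot cand cor cunpair cnatpair
  cmapsnd cmapfst ccond)

/-- every value is taken at most `c` times -/
def Bd (c : ℕ) (f : ℕ → ℕ) : Prop := ∀ y, {z | f z = y}.encard ≤ c

/-- the set of the numbers which are mapped into the copy of `P` -/
def pre (f : ℕ → ℕ) (P : List ℕ) : Set ℕ := {z | ∃ x ∈ P, f z = 3 * x}

/-- the number of the elements of `pre f P` -/
noncomputable def cnt (f : ℕ → ℕ) (P : List ℕ) : ℕ := (pre f P).ncard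

theorem pre_cons (f : ℕ → ℕ) (x : ℕ) (P : List ℕ) :
    pre f (x :: P) = {z | f z = 3 * x} ∪ pre f P := by
  ext z
  simp [pre]

theorem pre_append (f : ℕ → ℕ) (P Q : List ℕ) : pre f (P ++ Q) = pre f P ∪ pre f Q := by
  ext z
  simp only [pre, List.mem_append, Set.mem_union, Set.mem_ofPred_eq]
  constructor
  · rintro ⟨x, h | h, hx⟩
    exacts [Or.inl ⟨x, h, hx⟩, Or.inr ⟨x, h, hx⟩]
  · rintro (⟨x, h, hx⟩ | ⟨x, h, hx⟩)
    exacts [⟨x, Or.inl h, hx⟩, ⟨x, Or.inr h, hx⟩]

theorem pre_encard {c : ℕ} {f : ℕ → ℕ} (hb : Bd c f) (P : List ℕ) :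
    (pre f P).encard ≤ (c * P.length : ℕ) := by
  induction P with
  | nil => simp [pre]
  | cons x P ih =>
    rw [pre_cons]
    refine (Set.encard_union_le _ _).trans ?_
    refine (add_le_add (hb (3 * x)) ih).trans ?_
    rw [List.length_cons, ← Nat.cast_add]
    apply Nat.cast_le.2
    rw [Nat.mul_succ]
    omega

theorem pre_finite {c : ℕ} {f : ℕ → ℕ} (hb : Bd c f) (P : List ℕ) : (pre f P).Finite :=
  Set.finite_of_encard_le_coe (pre_encard hb P)

theorem cnt_le {c : ℕ} {f : ℕ → ℕ} (hb : Bd c f) (P : List ℕ) : cnt f P ≤ c * P.length := by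
  have h := pre_encard hb P
  rw [← (pre_finite hb P).cast_ncard_eq] at h
  exact Nat.cast_le.1 h

theorem cnt_append {c : ℕ} {f : ℕ → ℕ} (hb : Bd c f) {P Q : List ℕ} (h : ∀ x ∈ P, x ∉ Q) :
    cnt f (P ++ Q) = cnt f P + cnt f Q := by
  unfold cnt
  rw [pre_append]
  refine Set.ncard_union_eq ?_ (pre_finite hb P) (pre_finite hb Q)
  rw [Set.disjoint_left]
  rintro z ⟨x, hx, h1⟩ ⟨y, hy, h2⟩
  have h3 : x = y := by omega
  exact h x hx (h3 ▸ hy)

open Classical in
/-- the number of the `z < B` in `pre f P` -/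
noncomputable def num (f : ℕ → ℕ) (P : List ℕ) : ℕ → ℕ
  | 0 => 0
  | B + 1 => num f P B + if ∃ x ∈ P, f B = 3 * x then 1 else 0

theorem num_succ_of_mem {f : ℕ → ℕ} {P : List ℕ} {z : ℕ} (h : z ∈ pre f P) :
    num f P (z + 1) = num f P z + 1 := by
  have h' : ∃ x ∈ P, f z = 3 * x := h
  rw [num, if_pos h']

theorem num_succ_of_notMem {f : ℕ → ℕ} {P : List ℕ} {z : ℕ} (h : z ∉ pre f P) :
    num f P (z + 1) = num f P z := by
  have h' : ¬ ∃ x ∈ P, f z = 3 * x := h
  rw [num, if_neg h', Nat.add_zero]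

theorem num_eq (f : ℕ → ℕ) (P : List ℕ) (B : ℕ) : num f P B = ({z | z < B} ∩ pre f P).ncard := by
  have hfin : ∀ B : ℕ, ({z | z < B} ∩ pre f P).Finite := fun B =>
    (Set.finite_lt_nat B).subset Set.inter_subset_left
  induction B with
  | zero => simp [num]
  | succ B ih =>
    by_cases h : B ∈ pre f P
    · rw [num_succ_of_mem h, ih]
      have h1 : {z | z < B + 1} ∩ pre f P = insert B ({z | z < B} ∩ pre f P) := by
        ext z
        simp only [Set.mem_inter_iff, Set.mem_ofPred_eq, Set.mem_insert_iff]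
        constructor
        · rintro ⟨h2, h3⟩
          by_cases h4 : z = B
          · exact Or.inl h4
          · exact Or.inr ⟨by omega, h3⟩
        · rintro (rfl | ⟨h2, h3⟩)
          · exact ⟨by omega, h⟩
          · exact ⟨by omega, h3⟩
      rw [h1, Set.ncard_insert_of_notMem (by simp) (hfin B)]
    · rw [num_succ_of_notMem h, ih]
      congr 1
      ext z
      simp only [Set.mem_inter_iff, Set.mem_ofPred_eq]
      constructor
      · rintro ⟨h2, h3⟩
        exact ⟨by omega, h3⟩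
      · rintro ⟨h2, h3⟩
        refine ⟨?_, h3⟩
        by_contra hc
        have : z = B := by omega
        exact h (this ▸ h3)

theorem num_le {c : ℕ} {f : ℕ → ℕ} (hb : Bd c f) (P : List ℕ) (B : ℕ) : num f P B ≤ cnt f P := by
  rw [num_eq]
  exact Set.ncard_le_ncard Set.inter_subset_right (pre_finite hb P)

theorem num_mono {f : ℕ → ℕ} {P : List ℕ} {B B' : ℕ} (h : B ≤ B') : num f P B ≤ num f P B' := by
  obtain ⟨d, rfl⟩ := Nat.exists_eq_add_of_le h
  induction d with
  | zero => exact le_refl _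
  | succ d ih =>
    refine (ih (Nat.le_add_right _ _)).trans ?_
    rw [← Nat.add_assoc, num]
    exact Nat.le_add_right _ _

theorem exists_num {c : ℕ} {f : ℕ → ℕ} (hb : Bd c f) (P : List ℕ) : ∃ B, num f P B = cnt f P := by
  obtain ⟨B, hB⟩ := (pre_finite hb P).bddAbove
  refine ⟨B + 1, ?_⟩
  rw [num_eq]
  unfold cnt
  congr 1
  apply Set.inter_eq_right.2
  intro z hz
  exact Nat.lt_succ_of_le (hB hz)

theorem num_inj {f : ℕ → ℕ} {P : List ℕ} {z1 z2 : ℕ} (h1 : z1 ∈ pre f P) (h2 : z2 ∈ pre f P)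
    (h : num f P z1 = num f P z2) : z1 = z2 := by
  rcases lt_trichotomy z1 z2 with h3 | h3 | h3
  · have h4 := num_mono (f := f) (P := P) (Nat.succ_le_of_lt h3)
    have h5 := num_succ_of_mem h1
    rw [Nat.succ_eq_add_one] at h4
    omega
  · exact h3
  · have h4 := num_mono (f := f) (P := P) (Nat.succ_le_of_lt h3)
    have h5 := num_succ_of_mem h2
    rw [Nat.succ_eq_add_one] at h4
    omega

theorem num_surj {c : ℕ} {f : ℕ → ℕ} (hb : Bd c f) {P : List ℕ} {r : ℕ} (hr : r < cnt f P) :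
    ∃ z ∈ pre f P, num f P z = r := by
  classical
  obtain ⟨B, hB⟩ := exists_num hb P
  have h1 : ∃ B, r < num f P B := ⟨B, by rw [hB]; exact hr⟩
  obtain ⟨m, hm⟩ : ∃ m, Nat.find h1 = m + 1 := by
    refine Nat.exists_eq_succ_of_ne_zero fun h0 => ?_
    have := Nat.find_spec h1
    rw [h0] at this
    exact Nat.not_lt_zero _ this
  have h2 := Nat.find_spec h1
  have h3 : ¬ r < num f P m := Nat.find_min h1 (by omega)
  rw [hm] at h2
  by_cases h4 : m ∈ pre f P
  · rw [num_succ_of_mem h4] at h2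
    exact ⟨m, h4, by omega⟩
  · rw [num_succ_of_notMem h4] at h2
    exact absurd h2 h3

theorem cp_pre {α : Type*} [Primcodable α] {f : ℕ → ℕ} {b : α → List ℕ} {g : α → ℕ}
    (hf : Computable f) (hb : Computable b) (hg : Computable g) :
    ComputablePred fun a => ∃ x ∈ b a, f (g a) = 3 * x := by
  refine RE.cp_of_re ?_ ?_
  · exact RE.ex_mem (p := fun (a : α) (x : ℕ) => f (g a) = 3 * x) (RE.eq (by fun_prop)
      (by fun_prop)) hb
  · refine (RE.all_mem (p := fun (a : α) (x : ℕ) => f (g a) ≠ 3 * x) (RE.ne (by fun_prop)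
      (by fun_prop)) hb).of_eq fun a => ?_
    push Not
    rfl

theorem num_comp {α : Type*} [Primcodable α] {f : ℕ → ℕ} {b : α → List ℕ} {g : α → ℕ}
    (hf : Computable f) (hb : Computable b) (hg : Computable g) :
    Computable fun a => num f (b a) (g a) := by
  classical
  refine (Computable.nat_rec (f := g) (g := fun _ => 0) (h := fun (a : α) (y : ℕ × ℕ) =>
    y.2 + if ∃ x ∈ b a, f y.1 = 3 * x then 1 else 0) hg (Computable.const 0) ?_).of_eq ?_
  · have h1 : Computable fun x : α × (ℕ × ℕ) =>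
        if ∃ z ∈ b x.1, f x.2.1 = 3 * z then 1 else 0 :=
      RE.cite (cp_pre (b := fun x : α × (ℕ × ℕ) => b x.1) (g := fun x => x.2.1) hf
        (by fun_prop) (by fun_prop)) (Computable.const 1) (Computable.const 0)
    exact cadd (by fun_prop) h1
  · intro a
    generalize g a = n
    induction n with
    | zero => rfl
    | succ n ih =>
      show _ + _ = num f (b a) (n + 1)
      rw [ih, num]

/-- an infinite c.e. set contains a strictly increasing computable sequence -/
theorem exists_strictMono {r : ℕ → Prop} (hr : REPred r) (h : ∀ N, ∃ j ≥ N, r j) :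
    ∃ t : ℕ → ℕ, Computable t ∧ StrictMono t ∧ ∀ j, r (t j) := by
  obtain ⟨g, hg, hd, hs⟩ := RE.uniformize (r := fun (a j : ℕ) => a < j ∧ r j)
    (RE.and (RE.lt (by fun_prop) (by fun_prop)) (RE.comp hr (by fun_prop)))
  have hd' : ∀ a, (g a).Dom := fun a => (hd a).2 (by
    obtain ⟨j, hj, hrj⟩ := h (a + 1)
    exact ⟨j, hj, hrj⟩)
  let G : ℕ → ℕ := fun a => (g a).get (hd' a)
  have hG : Computable G := hg.of_eq_tot fun a => Part.get_mem _
  have hGs : ∀ a, a < G a ∧ r (G a) := fun a => hs a _ (Part.get_mem _)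
  let t : ℕ → ℕ := fun n => Nat.rec (motive := fun _ => ℕ) (G 0) (fun _ x => G x) n
  have ht : Computable t := Computable.nat_rec (f := fun n : ℕ => n) (g := fun _ => G 0)
    (h := fun _ (y : ℕ × ℕ) => G y.2) Computable.id (Computable.const _)
    (hG.comp (Computable.snd.comp Computable.snd))
  refine ⟨t, ht, strictMono_nat_of_lt_succ fun n => (hGs (t n)).1, fun j => ?_⟩
  cases j with
  | zero => exact (hGs 0).2
  | succ j => exact (hGs (t j)).2

/-- a bounded function which can be computably approximated from below is constant on a computable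
sequence -/
theorem thin {n : ℕ → ℕ} {K : ℕ} (hK : ∀ j, n j ≤ K)
    (hn : REPred fun p : ℕ × ℕ => p.2 ≤ n p.1) :
    ∃ v, ∃ t : ℕ → ℕ, Computable t ∧ StrictMono t ∧ ∀ j, n (t j) = v := by
  classical
  let P : ℕ → Prop := fun v => ∀ N, ∃ j ≥ N, v ≤ n j
  have h0 : P 0 := fun N => ⟨N, le_refl _, Nat.zero_le _⟩
  have h1 : P (Nat.findGreatest P K) := Nat.findGreatest_spec (Nat.zero_le K) h0
  have h2 : ¬ P (Nat.findGreatest P K + 1) := by
    intro h
    by_cases hc : Nat.findGreatest P K + 1 ≤ K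
    · have := Nat.le_findGreatest hc h
      omega
    · obtain ⟨j, -, hj⟩ := h 0
      have := hK j
      omega
  generalize Nat.findGreatest P K = v at h1 h2
  have h2' : ∃ N, ∀ j ≥ N, n j < v + 1 := by
    by_contra hc
    push Not at hc
    exact h2 hc
  obtain ⟨N, hN⟩ := h2'
  obtain ⟨t, ht1, ht2, ht3⟩ := exists_strictMono (r := fun j => N ≤ j ∧ v ≤ n j)
    (RE.and (RE.le (by fun_prop) (by fun_prop))
      (RE.comp (p := fun p : ℕ × ℕ => p.2 ≤ n p.1) hn (f := fun j => (j, v)) (by fun_prop)))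
    (fun M => by
      obtain ⟨j, hj, hj2⟩ := h1 (max N M)
      exact ⟨j, le_trans (le_max_right _ _) hj, le_trans (le_max_left _ _) hj, hj2⟩)
  refine ⟨v, t, ht1, ht2, fun j => ?_⟩
  have h3 := ht3 j
  have h4 := hN (t j) h3.1
  omega

/-- a computable sequence of blocks -/
structure Lvl where
  /-- the blocks -/
  b : ℕ → List ℕ
  comp : Computable b
  ne : ∀ j, b j ≠ []
  inc : ∀ i j, i < j → ∀ x ∈ b i, ∀ y ∈ b j, x < y
  /-- the length of the blocks -/
  len : ℕ
  hlen : ∀ j, (b j).length = len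

/-- the first sequence -/
def L0 : Lvl where
  b j := [j]
  comp := by fun_prop
  ne j := by simp
  inc i j h x hx y hy := by
    simp only [List.mem_singleton] at hx hy
    omega
  len := 1
  hlen j := rfl

theorem exists_next (L : Lvl) {f : ℕ → ℕ} {c : ℕ} (hf : Computable f) (hb : Bd c f) :
    ∃ L' : Lvl, (∀ j, ∃ i1 i2, 0 < i1 ∧ i1 < i2 ∧ L'.b j = L.b i1 ++ L.b i2) ∧
      ∃ v, ∀ j, cnt f (L'.b j) = v := by
  let b' : ℕ → List ℕ := fun j => L.b (2 * j + 1) ++ L.b (2 * j + 2)
  have hL := L.comp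
  have hb' : Computable b' := by
    show Computable fun j => L.b (2 * j + 1) ++ L.b (2 * j + 2)
    fun_prop
  have hlen : ∀ j, (b' j).length = L.len + L.len := fun j => by
    show (L.b (2 * j + 1) ++ L.b (2 * j + 2)).length = _
    rw [List.length_append, L.hlen, L.hlen]
  obtain ⟨v, t, ht1, ht2, ht3⟩ := thin (n := fun j => cnt f (b' j)) (K := c * (L.len + L.len))
    (fun j => by have := cnt_le hb (b' j); rwa [hlen] at this) (by
      refine (RE.exN (p := fun (p : ℕ × ℕ) B => p.2 ≤ num f (b' p.1) B)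
        (RE.le (by fun_prop) ?_)).of_eq fun p => ?_
      · exact num_comp (b := fun a : (ℕ × ℕ) × ℕ => b' a.1.1) (g := fun a => a.2) hf
          (by fun_prop) (by fun_prop)
      · constructor
        · rintro ⟨B, hB⟩
          exact hB.trans (num_le hb _ B)
        · intro h
          obtain ⟨B, hB⟩ := exists_num hb (b' p.1)
          exact ⟨B, by rw [hB]; exact h⟩)
  refine ⟨⟨fun j => b' (t j), by fun_prop, fun j => ?_, ?_, L.len + L.len, fun j => hlen _⟩,
    fun j => ⟨2 * t j + 1, 2 * t j + 2, by omega, by omega, rfl⟩, v, ht3⟩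
  · intro h
    have := List.append_eq_nil_iff.1 h
    exact L.ne _ this.1
  · intro i j hij x hx y hy
    have hlt := ht2 hij
    rcases List.mem_append.1 hx with hx | hx <;> rcases List.mem_append.1 hy with hy | hy
    · exact L.inc _ _ (by omega) x hx y hy
    · exact L.inc _ _ (by omega) x hx y hy
    · exact L.inc _ _ (by omega) x hx y hy
    · exact L.inc _ _ (by omega) x hx y hy

/-- the system of blocks -/
structure Sys (F : ℕ → ℕ → ℕ) where
  /-- the blocks -/
  b : ℕ → ℕ → List ℕ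
  comp : ∀ m, Computable (b m)
  ne : ∀ m j, b m j ≠ []
  inc : ∀ m i j, i < j → ∀ x ∈ b m i, ∀ y ∈ b m j, x < y
  split : ∀ m j, ∃ i1 i2, 0 < i1 ∧ i1 < i2 ∧ b (m + 1) j = b m i1 ++ b m i2
  const : ∀ m, ∃ v, ∀ j, cnt (F m) (b (m + 1) j) = v
  len : ∀ m, ∃ l, ∀ j, (b m j).length = l

theorem exists_sys (F : ℕ → ℕ → ℕ) (hF : ∀ m, Computable (F m) ∧ ∃ c, Bd c (F m)) :
    Nonempty (Sys F) := by
  have h : ∀ (m : ℕ) (L : Lvl), ∃ L' : Lvl,
      (∀ j, ∃ i1 i2, 0 < i1 ∧ i1 < i2 ∧ L'.b j = L.b i1 ++ L.b i2) ∧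
      ∃ v, ∀ j, cnt (F m) (L'.b j) = v := by
    intro m L
    obtain ⟨h1, c, h2⟩ := hF m
    exact exists_next L h1 h2
  choose nxt h1 h2 using h
  let S : ℕ → Lvl := fun n => Nat.rec (motive := fun _ => Lvl) L0 (fun m L => nxt m L) n
  exact ⟨⟨fun m => (S m).b, fun m => (S m).comp, fun m => (S m).ne, fun m => (S m).inc,
    fun m => h1 m (S m), fun m => h2 m (S m), fun m => ⟨(S m).len, (S m).hlen⟩⟩⟩

namespace Sys

variable {F : ℕ → ℕ → ℕ} (S : Sys F)

theorem disj {m i j x : ℕ} (hij : i ≠ j) (hx : x ∈ S.b m i) : x ∉ S.b m j := by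
  intro hy
  rcases lt_or_gt_of_ne hij with h | h
  · exact lt_irrefl x (S.inc m i j h x hx x hy)
  · exact lt_irrefl x (S.inc m j i h x hy x hx)

theorem index_eq {m i j x : ℕ} (hx : x ∈ S.b m i) (hy : x ∈ S.b m j) : i = j := by
  by_contra h
  exact S.disj h hx hy

theorem index_le {m j x : ℕ} (hx : x ∈ S.b m j) : j ≤ x := by
  induction j generalizing x with
  | zero => exact Nat.zero_le _
  | succ j ih =>
    obtain ⟨y, hy⟩ := List.exists_mem_of_ne_nil _ (S.ne m j)
    have h1 := ih hy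
    have h2 := S.inc m j (j + 1) (Nat.lt_succ_self j) y hy x hx
    omega

theorem up1 {m j x : ℕ} (hx : x ∈ S.b (m + 1) j) : ∃ i > 0, x ∈ S.b m i := by
  obtain ⟨i1, i2, h1, h2, h3⟩ := S.split m j
  rw [h3] at hx
  rcases List.mem_append.1 hx with h | h
  · exact ⟨i1, h1, h⟩
  · exact ⟨i2, by omega, h⟩

theorem up {m k j x : ℕ} (hmk : m ≤ k) (hx : x ∈ S.b k j) : ∃ i, x ∈ S.b m i := by
  obtain ⟨d, rfl⟩ := Nat.exists_eq_add_of_le hmk
  induction d generalizing j with
  | zero => exact ⟨j, hx⟩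
  | succ d ih =>
    obtain ⟨i, -, hi⟩ := S.up1 (m := m + d) hx
    exact ih (Nat.le_add_right _ _) hi

theorem up' {m k j x : ℕ} (hmk : m < k) (hx : x ∈ S.b k j) : x ∉ S.b m 0 := by
  obtain ⟨i, hi⟩ := S.up (m := m + 1) hmk hx
  obtain ⟨i', hi', hi2⟩ := S.up1 hi
  exact S.disj (by omega) hi2

/-- the blocks `b k 0` are disjoint -/
theorem level_eq {k k' x : ℕ} (hx : x ∈ S.b k 0) (hy : x ∈ S.b k' 0) : k = k' := by
  rcases lt_trichotomy k k' with h | h | h
  · exact absurd hx (S.up' h hy)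
  · exact h
  · exact absurd hy (S.up' h hx)

theorem whole {m k : ℕ} (hmk : m ≤ k) (i j : ℕ) :
    (∀ x ∈ S.b m i, x ∈ S.b k j) ∨ ∀ x ∈ S.b m i, x ∉ S.b k j := by
  obtain ⟨d, rfl⟩ := Nat.exists_eq_add_of_le hmk
  induction d generalizing j with
  | zero =>
    by_cases h : i = j
    · subst h
      exact Or.inl fun x hx => hx
    · exact Or.inr fun x hx => S.disj h hx
  | succ d ih =>
    obtain ⟨i1, i2, -, -, h3⟩ := S.split (m + d) j
    rw [← Nat.add_assoc, h3]
    rcases ih i1 (Nat.le_add_right _ _) with h | h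
    · exact Or.inl fun x hx => List.mem_append_left _ (h x hx)
    · rcases ih i2 (Nat.le_add_right _ _) with h' | h'
      · exact Or.inl fun x hx => List.mem_append_right _ (h' x hx)
      · right
        intro x hx hx'
        rcases List.mem_append.1 hx' with h4 | h4
        · exact h x hx h4
        · exact h' x hx h4

theorem cnt_up {f : ℕ → ℕ} {c m a : ℕ} (hb : Bd c f) (h : ∀ j, cnt f (S.b m j) = a) (d : ℕ) :
    ∀ j, cnt f (S.b (m + d) j) = 2 ^ d * a := by
  induction d with
  | zero => simpa using h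
  | succ d ih =>
    intro j
    obtain ⟨i1, i2, -, h2, h3⟩ := S.split (m + d) j
    rw [← Nat.add_assoc, h3, cnt_append hb (fun x hx => S.disj (by omega) hx), ih, ih, pow_succ]
    ring

end Sys

end Pool.Agent.R624.Blk
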