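import Pool.Agent.Helper446.Comp

/-!
# The enumeration degrees

Enumeration reducibility, the enumeration degrees as a partial order, and some facts about canonical
indices of finite sets.
-/

set_option autoImplicit false

namespace Pool.Agent.R624.EDeg

open Pool.Agent.Helper446
open Pool.Agent.Helper446.RE (cid cconst ccomp cfst csnd cpair cadd csub cmul cmin cmax csucc
  cappend ccons clength cgetElem cencode cdecode csome cisSome cnot cand cor cunpair cnatpair
  cmapsnd cmapfst ccond)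

/-- The finite set with canonical index `u`: the positions of the digits `1` in the binary
expansion of `u`. -/
def D (u : ℕ) : Set ℕ := {i | u.testBit i = true}

/-- The set of the `x` such that `(x, u) ∈ Ψ` for some `u` with `D u ⊆ B`. -/
def app (Ψ : Set (ℕ × ℕ)) (B : Set ℕ) : Set ℕ := {x | ∃ u, (x, u) ∈ Ψ ∧ D u ⊆ B}

/-- Enumeration reducibility: `A ≤_e B` if there is a c.e. set `Ψ` of pairs such that, for all `x`,
`x ∈ A` if and only if `(x, u) ∈ Ψ` for some `u` with `D u ⊆ B`. -/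
def ERed (A B : Set ℕ) : Prop :=
  ∃ Ψ : Set (ℕ × ℕ), REPred (fun p : ℕ × ℕ => p ∈ Ψ) ∧ A = app Ψ B

/-- The join of two sets. -/
def join (A B : Set ℕ) : Set ℕ := {z | (∃ n ∈ A, z = 2 * n) ∨ ∃ n ∈ B, z = 2 * n + 1}

/-! ### Canonical indices -/

theorem cpow : Computable fun n : ℕ => 2 ^ n := by
  refine (Computable.nat_rec (f := fun n : ℕ => n) (g := fun _ => 1)
    (h := fun (_ : ℕ) (y : ℕ × ℕ) => 2 * y.2) Computable.id (Computable.const 1) ?_).of_eq ?_
  · exact Primrec.nat_mul.to_comp.comp (Computable.const 2) (Computable.snd.comp Computable.snd)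
  · intro n
    induction n with
    | zero => rfl
    | succ n ih =>
      show 2 * _ = _
      rw [ih, pow_succ, mul_comm]

theorem cdivmod {α : Type*} [Primcodable α] {f g : α → ℕ} (hf : Computable f)
    (hg : Computable g) : Computable fun a => f a / 2 ^ g a % 2 := by
  have h1 : Computable fun a => f a / 2 ^ g a :=
    Primrec.nat_div.to_comp.comp hf (cpow.comp hg)
  exact Primrec.nat_mod.to_comp.comp h1 (Computable.const 2)

theorem testBit_iff (u i : ℕ) : u.testBit i = true ↔ u / 2 ^ i % 2 = 1 := by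
  rw [Nat.testBit_eq_decide_div_mod_eq]
  simp

/-- The list of the elements of `D u`. -/
def bits (u : ℕ) : List ℕ := (List.range u).filter fun i => decide (u / 2 ^ i % 2 = 1)

theorem mem_bits {u i : ℕ} : i ∈ bits u ↔ i ∈ D u := by
  simp only [bits, D, List.mem_filter, List.mem_range, decide_eq_true_eq, Set.mem_ofPred_eq,
    testBit_iff]
  constructor
  · exact fun h => h.2
  · intro h
    refine ⟨?_, h⟩
    by_contra hc
    push Not at hc
    have h1 : u < 2 ^ i := lt_of_le_of_lt hc Nat.lt_two_pow_self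
    rw [Nat.div_eq_of_lt h1] at h
    simp at h

@[fun_prop] theorem cbits : Computable bits := by
  have h : Computable fun u : ℕ => (List.range u).foldl
      (fun (s : List ℕ) (i : ℕ) => if u / 2 ^ i % 2 = 1 then s ++ [i] else s) [] := by
    refine RE.list_foldl (f := fun u => List.range u) (g := fun _ => ([] : List ℕ))
      (h := fun u y => if u / 2 ^ y.2 % 2 = 1 then y.1 ++ [y.2] else y.1) ?_
      (Computable.const _) ?_
    · exact Primrec.list_range.to_comp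
    · have h1 : Computable fun x : ℕ × (List ℕ × ℕ) => x.1 / 2 ^ x.2.2 % 2 :=
        cdivmod Computable.fst (by fun_prop)
      exact RE.cite (RE.cp_eq h1 (Computable.const 1)) (by fun_prop) (by fun_prop)
  refine h.of_eq fun u => ?_
  have key : ∀ (l : List ℕ) (s : List ℕ), l.foldl
      (fun (s : List ℕ) (i : ℕ) => if u / 2 ^ i % 2 = 1 then s ++ [i] else s) s =
      s ++ l.filter fun i => decide (u / 2 ^ i % 2 = 1) := by
    intro l
    induction l with
    | nil => intro s; simp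
    | cons a l ih =>
      intro s
      rw [List.foldl_cons, ih]
      by_cases ha : u / 2 ^ a % 2 = 1
      · simp [ha]
      · simp [ha]
  rw [key]
  rfl

/-- every finite list has a canonical index -/
theorem exists_index (l : List ℕ) : ∃ w : ℕ, ∀ i, i ∈ D w ↔ i ∈ l := by
  induction l with
  | nil => exact ⟨0, fun i => by simp [D]⟩
  | cons a l ih =>
    obtain ⟨w, hw⟩ := ih
    refine ⟨2 ^ a ||| w, fun i => ?_⟩
    have h1 : i ∈ D w ↔ i ∈ l := hw i
    simp only [D, Set.mem_ofPred_eq, Nat.testBit_or, Bool.or_eq_true, List.mem_cons] at h1 ⊢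
    rw [h1, Nat.testBit_two_pow]
    simp [eq_comm]

theorem D_pow (a : ℕ) : D (2 ^ a) = {a} := by
  ext i
  simp only [D, Set.mem_ofPred_eq, Nat.testBit_two_pow, decide_eq_true_eq, Set.mem_singleton_iff]
  exact eq_comm

theorem D_finite (u : ℕ) : (D u).Finite := by
  refine (List.finite_toSet (bits u)).subset ?_
  intro i hi
  exact mem_bits.2 hi

theorem app_mono {Ψ : Set (ℕ × ℕ)} {A B : Set ℕ} (h : A ⊆ B) : app Ψ A ⊆ app Ψ B := by
  rintro x ⟨u, hu, hD⟩
  exact ⟨u, hu, hD.trans h⟩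

/-! ### The preorder -/

/-- A many-one reduction gives an enumeration reduction. -/
theorem ered_of_comp {A B : Set ℕ} {f : ℕ → ℕ} (hf : Computable f) (h : ∀ x, x ∈ A ↔ f x ∈ B) :
    ERed A B := by
  refine ⟨{p | p.2 = 2 ^ (f p.1)}, ?_, ?_⟩
  · exact RE.eq (by fun_prop) (cpow.comp (hf.comp Computable.fst))
  · ext x
    rw [h x]
    constructor
    · intro hx
      exact ⟨2 ^ (f x), rfl, by rw [D_pow]; simpa using hx⟩
    · rintro ⟨u, hu, h⟩
      have hu' : u = 2 ^ (f x) := hu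
      rw [hu', D_pow] at h
      exact h rfl

theorem ered_refl (A : Set ℕ) : ERed A A := ered_of_comp Computable.id fun _ => Iff.rfl

theorem ered_trans {A B C : Set ℕ} (h1 : ERed A B) (h2 : ERed B C) : ERed A C := by
  obtain ⟨Ψ, hΨ, rfl⟩ := h1
  obtain ⟨Φ, hΦ, rfl⟩ := h2
  refine ⟨{p | ∃ u, (p.1, u) ∈ Ψ ∧ ∃ l : List (ℕ × ℕ), (∀ i ∈ bits u, ∃ q ∈ l, q.1 = i) ∧
    (∀ q ∈ l, q ∈ Φ) ∧ ∀ q ∈ l, ∀ i ∈ bits q.2, i ∈ bits p.2}, ?_, ?_⟩
  · refine RE.ex (p := fun (p : ℕ × ℕ) (u : ℕ) => (p.1, u) ∈ Ψ ∧ ∃ l : List (ℕ × ℕ),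
      (∀ i ∈ bits u, ∃ q ∈ l, q.1 = i) ∧ (∀ q ∈ l, q ∈ Φ) ∧
      ∀ q ∈ l, ∀ i ∈ bits q.2, i ∈ bits p.2) ?_
    refine RE.and (RE.comp (p := fun p : ℕ × ℕ => p ∈ Ψ) hΨ
      (f := fun x : (ℕ × ℕ) × ℕ => (x.1.1, x.2)) (by fun_prop)) ?_
    refine RE.ex (p := fun (x : (ℕ × ℕ) × ℕ) (l : List (ℕ × ℕ)) =>
      (∀ i ∈ bits x.2, ∃ q ∈ l, q.1 = i) ∧ (∀ q ∈ l, q ∈ Φ) ∧
      ∀ q ∈ l, ∀ i ∈ bits q.2, i ∈ bits x.1.2) ?_
    refine RE.and ?_ (RE.and ?_ ?_)
    · refine RE.all_mem (p := fun (x : ((ℕ × ℕ) × ℕ) × List (ℕ × ℕ)) (i : ℕ) =>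
        ∃ q ∈ x.2, q.1 = i) (l := fun x => bits x.1.2) ?_ (by fun_prop)
      exact RE.ex_mem (p := fun (x : (((ℕ × ℕ) × ℕ) × List (ℕ × ℕ)) × ℕ) (q : ℕ × ℕ) =>
        q.1 = x.2) (l := fun x => x.1.2) (RE.eq (by fun_prop) (by fun_prop)) (by fun_prop)
    · refine RE.all_mem (p := fun (x : ((ℕ × ℕ) × ℕ) × List (ℕ × ℕ)) (q : ℕ × ℕ) =>
        q ∈ Φ) (l := fun x => x.2) ?_ (by fun_prop)
      exact RE.comp (p := fun p : ℕ × ℕ => p ∈ Φ) hΦ (by fun_prop)
    · refine RE.all_mem (p := fun (x : ((ℕ × ℕ) × ℕ) × List (ℕ × ℕ)) (q : ℕ × ℕ) =>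
        ∀ i ∈ bits q.2, i ∈ bits x.1.1.2) (l := fun x => x.2) ?_ (by fun_prop)
      refine RE.all_mem (p := fun (x : (((ℕ × ℕ) × ℕ) × List (ℕ × ℕ)) × (ℕ × ℕ)) (i : ℕ) =>
        i ∈ bits x.1.1.1.2) (l := fun x => bits x.2.2) ?_ (by fun_prop)
      exact RE.mem_list (by fun_prop) (by fun_prop)
  · ext x
    constructor
    · rintro ⟨u, hu, h⟩
      have h1 : ∀ i, ∃ v, i ∈ bits u → (i, v) ∈ Φ ∧ D v ⊆ C := by
        intro i
        by_cases hi : i ∈ bits u
        · obtain ⟨v, hv⟩ := h (mem_bits.1 hi)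
          exact ⟨v, fun _ => hv⟩
        · exact ⟨0, fun h => absurd h hi⟩
      choose v hv using h1
      obtain ⟨w, hw⟩ := exists_index ((bits u).flatMap fun i => bits (v i))
      refine ⟨w, ⟨u, hu, (bits u).map fun i => (i, v i), ?_, ?_, ?_⟩, ?_⟩
      · intro i hi
        exact ⟨(i, v i), List.mem_map.2 ⟨i, hi, rfl⟩, rfl⟩
      · intro q hq
        obtain ⟨i, hi, rfl⟩ := List.mem_map.1 hq
        exact (hv i hi).1
      · intro q hq i hi
        obtain ⟨k, hk, rfl⟩ := List.mem_map.1 hq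
        exact mem_bits.2 ((hw i).2 (List.mem_flatMap.2 ⟨k, hk, hi⟩))
      · intro i hi
        obtain ⟨k, hk, hik⟩ := List.mem_flatMap.1 ((hw i).1 hi)
        exact (hv k hk).2 (mem_bits.1 hik)
    · rintro ⟨w, ⟨u, hu, l, hl1, hl3, hl5⟩, hw⟩
      refine ⟨u, hu, fun i hi => ?_⟩
      obtain ⟨q, hq, rfl⟩ := hl1 i (mem_bits.2 hi)
      exact ⟨q.2, hl3 q hq, fun k hk => hw (mem_bits.1 (hl5 q hq k (mem_bits.2 hk)))⟩

/-- The subsets of `ℕ`, preordered by enumeration reducibility. -/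
structure ESet where
  /-- the underlying set -/
  carrier : Set ℕ

instance : Preorder ESet where
  le A B := ERed A.carrier B.carrier
  le_refl A := ered_refl A.carrier
  le_trans _ _ _ h1 h2 := ered_trans h1 h2

/-- The enumeration degrees, with the order induced by enumeration reducibility. -/
abbrev EDegree : Type := Antisymmetrization ESet (· ≤ ·)

/-- The enumeration degree of a set. -/
def deg (A : Set ℕ) : EDegree := toAntisymmetrization (· ≤ ·) (ESet.mk A)

theorem deg_le {A B : Set ℕ} : deg A ≤ deg B ↔ ERed A B := Iff.rfl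

theorem deg_surj (a : EDegree) : ∃ A, a = deg A := by
  induction a using Quotient.inductionOn with
  | _ A => exact ⟨A.carrier, rfl⟩

/-- A standard enumeration of the enumeration operators. -/
def W (e : ℕ) : Set (ℕ × ℕ) := {p | ∃ s, RE.wst (ℕ × ℕ) e s p = true}

theorem W_re (e : ℕ) : REPred fun p : ℕ × ℕ => p ∈ W e := RE.wst_re e

theorem exists_W {Ψ : Set (ℕ × ℕ)} (hΨ : REPred fun p : ℕ × ℕ => p ∈ Ψ) : ∃ e, Ψ = W e := by
  obtain ⟨e, he⟩ := RE.wst_univ hΨ
  exact ⟨e, Set.ext he⟩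

theorem ered_iff {A B : Set ℕ} : ERed A B ↔ ∃ e, A = app (W e) B := by
  constructor
  · rintro ⟨Ψ, hΨ, h⟩
    obtain ⟨e, rfl⟩ := exists_W hΨ
    exact ⟨e, h⟩
  · rintro ⟨e, h⟩
    exact ⟨W e, W_re e, h⟩

end Pool.Agent.R624.EDeg
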