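import Pool.Agent.Helper446.Comp

/-!
# Weihrauch reducibility

Partial computable functions on Baire space, given by c.e. sets of axioms, problems and Weihrauch
reducibility.
-/

set_option autoImplicit false

namespace Pool.Agent.R624.WR

open Encodable Pool.Agent.Helper446
open Pool.Agent.Helper446.RE (cid cconst ccomp cfst csnd cpair cadd csub cmul cmin cmax csucc
  cappend ccons clength cgetElem cencode cdecode csome cisSome cnot cand cor cunpair cnatpair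
  cmapsnd cmapfst ccond)

/-- The initial segment of `p` of length `k`. -/
def seg (p : ℕ → ℕ) (k : ℕ) : List ℕ := (List.range k).map p

/-- An axiom `(σ, n, m)` says: if `σ` is an initial segment of the input then the value of the output
at `n` is `m`. -/
abbrev Ax : Type := List ℕ × ℕ × ℕ

/-- The set of axioms `W` computes `q` from `p`: the graph of `q` is the set of all `(n, m)` such that
`(σ, n, m) ∈ W` for some initial segment `σ` of `p`. -/
def Computes (W : Set Ax) (p q : ℕ → ℕ) : Prop := ∀ n m, q n = m ↔ ∃ k, (seg p k, n, m) ∈ W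

/-- The set of axioms is computably enumerable. -/
def CE (W : Set Ax) : Prop := REPred fun a : Ax => a ∈ W

/-- The pair of `p` and `q`, as a point of Baire space. -/
def pr (p q : ℕ → ℕ) : ℕ → ℕ := fun n => Nat.pair (p n) (q n)

/-- The first component of the pair `w`. -/
def fst (w : ℕ → ℕ) : ℕ → ℕ := fun n => (w n).unpair.1

/-- The second component of the pair `w`. -/
def snd (w : ℕ → ℕ) : ℕ → ℕ := fun n => (w n).unpair.2

/-- The sequence `a, p 0, p 1, …`. -/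
def cons (a : ℕ) (p : ℕ → ℕ) : ℕ → ℕ
  | 0 => a
  | n + 1 => p n

/-- The sequence without its first element. -/
def tl (p : ℕ → ℕ) : ℕ → ℕ := fun n => p (n + 1)

@[simp] theorem fst_pr (p q : ℕ → ℕ) : fst (pr p q) = p := by
  funext n; simp [fst, pr]

@[simp] theorem snd_pr (p q : ℕ → ℕ) : snd (pr p q) = q := by
  funext n; simp [snd, pr]

@[simp] theorem cons_zero (a : ℕ) (p : ℕ → ℕ) : cons a p 0 = a := rfl

@[simp] theorem cons_succ (a : ℕ) (p : ℕ → ℕ) (n : ℕ) : cons a p (n + 1) = p n := rfl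

@[simp] theorem tl_cons (a : ℕ) (p : ℕ → ℕ) : tl (cons a p) = p := rfl

theorem cons_tl (p : ℕ → ℕ) : cons (p 0) (tl p) = p := by
  funext n; cases n <;> rfl

/-! ### Segments -/

theorem seg_length (p : ℕ → ℕ) (k : ℕ) : (seg p k).length = k := by simp [seg]

theorem seg_getElem? (p : ℕ → ℕ) {j k : ℕ} (h : j < k) : (seg p k)[j]? = some (p j) := by
  simp [seg, h]

theorem seg_getElem?_some {p : ℕ → ℕ} {j k v : ℕ} (h : (seg p k)[j]? = some v) : j < k ∧ v = p j := by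
  simp only [seg, List.getElem?_map, Option.map_eq_some_iff] at h
  obtain ⟨a, ha, rfl⟩ := h
  rw [List.getElem?_eq_some_iff] at ha
  obtain ⟨h1, h2⟩ := ha
  rw [List.getElem_range] at h2
  subst h2
  exact ⟨by simpa using h1, rfl⟩

theorem seg_append (p : ℕ → ℕ) {a b : ℕ} (h : a ≤ b) : ∃ β, seg p a ++ β = seg p b := by
  obtain ⟨d, rfl⟩ := Nat.exists_eq_add_of_le h
  refine ⟨(List.range d).map fun i => p (a + i), ?_⟩
  simp [seg, List.range_add, Function.comp_def]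

theorem eq_seg {p : ℕ → ℕ} {k : ℕ} {α β : List ℕ} (h : α ++ β = seg p k) :
    α = seg p α.length ∧ α.length ≤ k := by
  have hlen : α.length ≤ k := by
    have := congrArg List.length h
    rw [List.length_append, seg_length] at this
    omega
  refine ⟨?_, hlen⟩
  obtain ⟨γ, hγ⟩ := seg_append p hlen
  rw [← hγ] at h
  exact (List.append_inj h (by rw [seg_length])).1

theorem eq_seg_of {p : ℕ → ℕ} {τ : List ℕ} (h : ∀ j < τ.length, τ[j]? = some (p j)) :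
    τ = seg p τ.length := by
  apply List.ext_getElem?
  intro j
  by_cases hj : j < τ.length
  · rw [h j hj, seg_getElem? p hj]
  · rw [List.getElem?_eq_none (by omega), List.getElem?_eq_none (by rw [seg_length]; omega)]

theorem seg_congr {p q : ℕ → ℕ} {k : ℕ} (h : ∀ j < k, p j = q j) : seg p k = seg q k := by
  unfold seg
  apply List.map_congr_left
  intro j hj
  exact h j (List.mem_range.1 hj)

theorem seg_cons (a : ℕ) (p : ℕ → ℕ) (k : ℕ) : seg (cons a p) (k + 1) = a :: seg p k := by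
  unfold seg
  rw [List.range_succ_eq_map, List.map_cons, List.map_map]
  rfl

theorem Computes.unique {W : Set Ax} {p q q' : ℕ → ℕ} (h : Computes W p q) (h' : Computes W p q') :
    q = q' := by
  funext n
  exact ((h' n (q n)).2 ((h n (q n)).1 rfl)).symm

/-! ### Computable relations -/

/-- the relation is contained in a computable partial function -/
def Cfl (R : (ℕ → ℕ) → (ℕ → ℕ) → Prop) : Prop := ∃ W, CE W ∧ ∀ p q, R p q → Computes W p q

theorem Cfl.mono {R R' : (ℕ → ℕ) → (ℕ → ℕ) → Prop} (h : Cfl R) (hR : ∀ p q, R' p q → R p q) :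
    Cfl R' := by
  obtain ⟨W, hW, h⟩ := h
  exact ⟨W, hW, fun p q hpq => h p q (hR p q hpq)⟩

theorem cfl_of_ce {W : Set Ax} (hW : CE W) : Cfl (Computes W) := ⟨W, hW, fun _ _ h => h⟩

/-- prefix closure -/
theorem re_pre {α : Type*} [Primcodable α] {W : Set Ax} (hW : CE W) {σ : α → List ℕ} {n m : α → ℕ}
    (hσ : Computable σ) (hn : Computable n) (hm : Computable m) :
    REPred fun a => ∃ κ β : List ℕ, κ ++ β = σ a ∧ (κ, n a, m a) ∈ W := by
  refine RE.ex (p := fun (a : α) (κ : List ℕ) => ∃ β : List ℕ, κ ++ β = σ a ∧ (κ, n a, m a) ∈ W) ?_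
  refine RE.ex (p := fun (a : α × List ℕ) (β : List ℕ) => a.2 ++ β = σ a.1 ∧
    (a.2, n a.1, m a.1) ∈ W) ?_
  refine RE.and (RE.eq (by fun_prop) (by fun_prop)) ?_
  exact RE.comp (p := fun a : Ax => a ∈ W) hW (by fun_prop)

theorem pre_seg {W : Set Ax} {p : ℕ → ℕ} {n m : ℕ} :
    (∃ k, ∃ κ β : List ℕ, κ ++ β = seg p k ∧ (κ, n, m) ∈ W) ↔ ∃ k, (seg p k, n, m) ∈ W := by
  constructor
  · rintro ⟨k, κ, β, h1, h2⟩
    obtain ⟨h3, -⟩ := eq_seg h1
    exact ⟨κ.length, h3 ▸ h2⟩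
  · rintro ⟨k, h⟩
    exact ⟨k, seg p k, [], by simp, h⟩

theorem Cfl.comp {R S : (ℕ → ℕ) → (ℕ → ℕ) → Prop} (hR : Cfl R) (hS : Cfl S) :
    Cfl fun p y => ∃ x, R p x ∧ S x y := by
  obtain ⟨W, hW, hR⟩ := hR
  obtain ⟨V, hV, hS⟩ := hS
  refine ⟨{a | ∃ τ : List ℕ, (∀ j < τ.length, ∃ v, τ[j]? = some v ∧
    ∃ κ β : List ℕ, κ ++ β = a.1 ∧ (κ, j, v) ∈ W) ∧ (τ, a.2.1, a.2.2) ∈ V}, ?_, ?_⟩
  · refine RE.ex (p := fun (a : Ax) (τ : List ℕ) => (∀ j < τ.length, ∃ v, τ[j]? = some v ∧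
      ∃ κ β : List ℕ, κ ++ β = a.1 ∧ (κ, j, v) ∈ W) ∧ (τ, a.2.1, a.2.2) ∈ V) ?_
    refine RE.and ?_ (RE.comp (p := fun a : Ax => a ∈ V) hV (by fun_prop))
    refine RE.all_lt (p := fun (x : Ax × List ℕ) (j : ℕ) => ∃ v, x.2[j]? = some v ∧
      ∃ κ β : List ℕ, κ ++ β = x.1.1 ∧ (κ, j, v) ∈ W) ?_ (by fun_prop)
    refine RE.exN (p := fun (x : (Ax × List ℕ) × ℕ) (v : ℕ) => x.1.2[x.2]? = some v ∧
      ∃ κ β : List ℕ, κ ++ β = x.1.1.1 ∧ (κ, x.2, v) ∈ W) ?_
    refine RE.and (RE.eq (by fun_prop) (by fun_prop)) ?_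
    exact re_pre hW (σ := fun x : ((Ax × List ℕ) × ℕ) × ℕ => x.1.1.1.1) (n := fun x => x.1.2)
      (m := fun x => x.2) (by fun_prop) (by fun_prop) (by fun_prop)
  · rintro p y ⟨x, hpx, hxy⟩ n m
    have h1 := hR p x hpx
    have h2 := hS x y hxy
    constructor
    · intro h
      obtain ⟨k, hk⟩ := (h2 n m).1 h
      have h3 : ∀ j, ∃ k', (seg p k', j, x j) ∈ W := fun j => (h1 j (x j)).1 rfl
      choose K hK using h3
      refine ⟨(Finset.range k).sup K, seg x k, ?_, hk⟩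
      intro j hj
      rw [seg_length] at hj
      refine ⟨x j, seg_getElem? x hj, seg p (K j), ?_⟩
      obtain ⟨β, hβ⟩ := seg_append p (Finset.le_sup (f := K) (Finset.mem_range.2 hj))
      exact ⟨β, hβ, hK j⟩
    · rintro ⟨k, τ, h3, h4⟩
      have h5 : τ = seg x τ.length := by
        apply eq_seg_of
        intro j hj
        obtain ⟨v, hv, κ, β, h6, h7⟩ := h3 j hj
        obtain ⟨h8, -⟩ := eq_seg h6
        rw [h8] at h7
        rw [hv, (h1 j v).2 ⟨_, h7⟩]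
      rw [h5] at h4
      exact (h2 n m).2 ⟨_, h4⟩

theorem Cfl.pair {R S : (ℕ → ℕ) → (ℕ → ℕ) → Prop} (hR : Cfl R) (hS : Cfl S) :
    Cfl fun p z => ∃ x y, R p x ∧ S p y ∧ z = pr x y := by
  obtain ⟨W, hW, hR⟩ := hR
  obtain ⟨V, hV, hS⟩ := hS
  refine ⟨{a | (∃ κ β : List ℕ, κ ++ β = a.1 ∧ (κ, a.2.1, a.2.2.unpair.1) ∈ W) ∧
    ∃ κ β : List ℕ, κ ++ β = a.1 ∧ (κ, a.2.1, a.2.2.unpair.2) ∈ V}, ?_, ?_⟩
  · exact RE.and (re_pre hW (σ := fun a : Ax => a.1) (n := fun a => a.2.1)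
      (m := fun a => a.2.2.unpair.1) (by fun_prop) (by fun_prop) (by fun_prop))
      (re_pre hV (σ := fun a : Ax => a.1) (n := fun a => a.2.1)
      (m := fun a => a.2.2.unpair.2) (by fun_prop) (by fun_prop) (by fun_prop))
  · rintro p z ⟨x, y, hx, hy, rfl⟩ n m
    have h1 := hR p x hx
    have h2 := hS p y hy
    constructor
    · rintro rfl
      obtain ⟨k1, hk1⟩ := (h1 n (x n)).1 rfl
      obtain ⟨k2, hk2⟩ := (h2 n (y n)).1 rfl
      obtain ⟨β1, hβ1⟩ := seg_append p (le_max_left k1 k2)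
      obtain ⟨β2, hβ2⟩ := seg_append p (le_max_right k1 k2)
      refine ⟨max k1 k2, ⟨seg p k1, β1, hβ1, ?_⟩, seg p k2, β2, hβ2, ?_⟩
      · simpa [pr] using hk1
      · simpa [pr] using hk2
    · rintro ⟨k, ⟨κ, β, h3, h4⟩, κ', β', h5, h6⟩
      obtain ⟨h7, -⟩ := eq_seg h3
      obtain ⟨h8, -⟩ := eq_seg h5
      rw [h7] at h4
      rw [h8] at h6
      have h9 : x n = m.unpair.1 := (h1 n _).2 ⟨_, h4⟩
      have h10 : y n = m.unpair.2 := (h2 n _).2 ⟨_, h6⟩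
      show Nat.pair (x n) (y n) = m
      rw [h9, h10, Nat.pair_unpair]

/-- case distinction -/
theorem Cfl.cases {R S : (ℕ → ℕ) → (ℕ → ℕ) → Prop} (hR : Cfl R) (hS : Cfl S) {P : List ℕ → Prop}
    (hP : ComputablePred P) (l : ℕ) :
    Cfl fun p y => (P (seg p l) ∧ R p y) ∨ (¬ P (seg p l) ∧ S p y) := by
  obtain ⟨W, hW, hR⟩ := hR
  obtain ⟨V, hV, hS⟩ := hS
  refine ⟨{a | (∃ κ : List ℕ, (∃ β, κ ++ β = a.1) ∧ κ.length = l ∧ P κ) ∧
      (∃ κ β : List ℕ, κ ++ β = a.1 ∧ (κ, a.2.1, a.2.2) ∈ W) ∨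
    (∃ κ : List ℕ, (∃ β, κ ++ β = a.1) ∧ κ.length = l ∧ ¬ P κ) ∧
      (∃ κ β : List ℕ, κ ++ β = a.1 ∧ (κ, a.2.1, a.2.2) ∈ V)}, ?_, ?_⟩
  · have h1 : ∀ Q : List ℕ → Prop, ComputablePred Q →
        REPred fun a : Ax => ∃ κ : List ℕ, (∃ β, κ ++ β = a.1) ∧ κ.length = l ∧ Q κ := by
      intro Q hQ
      refine RE.ex (p := fun (a : Ax) (κ : List ℕ) => (∃ β, κ ++ β = a.1) ∧ κ.length = l ∧ Q κ) ?_
      refine RE.and ?_ (RE.and (RE.eq (by fun_prop) (by fun_prop)) ?_)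
      · exact RE.ex (p := fun (a : Ax × List ℕ) (β : List ℕ) => a.2 ++ β = a.1.1)
          (RE.eq (by fun_prop) (by fun_prop))
      · exact (RE.cp_comp hQ (f := fun a : Ax × List ℕ => a.2) (by fun_prop)).to_re
    refine RE.or (RE.and (h1 _ hP) ?_) (RE.and (h1 _ hP.not) ?_)
    · exact re_pre hW (σ := fun a : Ax => a.1) (n := fun a => a.2.1)
        (m := fun a => a.2.2) (by fun_prop) (by fun_prop) (by fun_prop)
    · exact re_pre hV (σ := fun a : Ax => a.1) (n := fun a => a.2.1)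
        (m := fun a => a.2.2) (by fun_prop) (by fun_prop) (by fun_prop)
  · intro p y h n m
    have h0 : ∀ k, ∀ κ : List ℕ, (∃ β, κ ++ β = seg p k) → κ.length = l → κ = seg p l := by
      rintro k κ ⟨β, hβ⟩ hl
      obtain ⟨h1, -⟩ := eq_seg hβ
      rw [hl] at h1
      exact h1
    have key : ∀ {W : Set Ax}, Computes W p y → (∃ k, (seg p k, n, m) ∈ W) →
        ∃ k, (∃ β, seg p l ++ β = seg p k) ∧ ∃ κ β : List ℕ, κ ++ β = seg p k ∧ (κ, n, m) ∈ W := by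
      rintro W - ⟨k, hk⟩
      obtain ⟨β1, hβ1⟩ := seg_append p (le_max_left k l)
      obtain ⟨β2, hβ2⟩ := seg_append p (le_max_right k l)
      exact ⟨max k l, ⟨β2, hβ2⟩, seg p k, β1, hβ1, hk⟩
    rcases h with ⟨h1, h2⟩ | ⟨h1, h2⟩
    · have h3 := hR p y h2
      constructor
      · intro h4
        obtain ⟨k, h5, h6⟩ := key h3 ((h3 n m).1 h4)
        exact ⟨k, Or.inl ⟨⟨seg p l, h5, seg_length p l, h1⟩, h6⟩⟩
      · rintro ⟨k, ⟨-, κ, β, h5, h6⟩ | ⟨⟨κ, h5, h6, h7⟩, -⟩⟩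
        · exact (h3 n m).2 (pre_seg.1 ⟨k, κ, β, h5, h6⟩)
        · rw [h0 k κ h5 h6] at h7
          exact absurd h1 h7
    · have h3 := hS p y h2
      constructor
      · intro h4
        obtain ⟨k, h5, h6⟩ := key h3 ((h3 n m).1 h4)
        exact ⟨k, Or.inr ⟨⟨seg p l, h5, seg_length p l, h1⟩, h6⟩⟩
      · rintro ⟨k, ⟨⟨κ, h5, h6, h7⟩, -⟩ | ⟨-, κ, β, h5, h6⟩⟩
        · rw [h0 k κ h5 h6] at h7
          exact absurd h7 h1
        · exact (h3 n m).2 (pre_seg.1 ⟨k, κ, β, h5, h6⟩)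

/-- maps where each value depends on two values at computable places -/
def Bas (T : (ℕ → ℕ) → (ℕ → ℕ)) : Prop :=
  ∃ (G : ℕ × ℕ × ℕ → ℕ) (a b : ℕ → ℕ), Computable G ∧ Computable a ∧ Computable b ∧
    ∀ p n, T p n = G (n, p (a n), p (b n))

theorem Bas.cfl {T : (ℕ → ℕ) → (ℕ → ℕ)} (hT : Bas T) : Cfl fun p q => q = T p := by
  obtain ⟨G, a, b, hG, ha, hb, hT⟩ := hT
  refine ⟨{x | ∃ v w, x.1[a x.2.1]? = some v ∧ x.1[b x.2.1]? = some w ∧
    G (x.2.1, v, w) = x.2.2}, ?_, ?_⟩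
  · refine RE.exN (p := fun (x : Ax) (v : ℕ) => ∃ w, x.1[a x.2.1]? = some v ∧
      x.1[b x.2.1]? = some w ∧ G (x.2.1, v, w) = x.2.2) ?_
    refine RE.exN (p := fun (x : Ax × ℕ) (w : ℕ) => x.1.1[a x.1.2.1]? = some x.2 ∧
      x.1.1[b x.1.2.1]? = some w ∧ G (x.1.2.1, x.2, w) = x.1.2.2) ?_
    exact RE.and (RE.eq (by fun_prop) (by fun_prop)) (RE.and (RE.eq (by fun_prop) (by fun_prop))
      (RE.eq (by fun_prop) (by fun_prop)))
  · rintro p q rfl n m
    rw [hT]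
    constructor
    · intro h
      refine ⟨max (a n) (b n) + 1, p (a n), p (b n), ?_, ?_, h⟩
      · exact seg_getElem? p (Nat.lt_succ_of_le (le_max_left _ _))
      · exact seg_getElem? p (Nat.lt_succ_of_le (le_max_right _ _))
    · rintro ⟨k, v, w, h1, h2, h3⟩
      obtain ⟨-, rfl⟩ := seg_getElem?_some h1
      obtain ⟨-, rfl⟩ := seg_getElem?_some h2
      exact h3

theorem bas_id : Bas fun p => p := ⟨fun x => x.2.1, fun n => n, fun n => n, by fun_prop,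
  by fun_prop, by fun_prop, fun _ _ => rfl⟩

theorem bas_fst : Bas fst := ⟨fun x => x.2.1.unpair.1, fun n => n, fun n => n, by fun_prop,
  by fun_prop, by fun_prop, fun _ _ => rfl⟩

theorem bas_snd : Bas snd := ⟨fun x => x.2.1.unpair.2, fun n => n, fun n => n, by fun_prop,
  by fun_prop, by fun_prop, fun _ _ => rfl⟩

theorem bas_tl : Bas tl := ⟨fun x => x.2.1, fun n => n + 1, fun n => n, by fun_prop,
  by fun_prop, by fun_prop, fun _ _ => rfl⟩

theorem cpred {α : Type*} [Primcodable α] {f : α → ℕ} (hf : Computable f) :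
    Computable fun a => f a - 1 := by fun_prop

theorem bas_cons (c : ℕ) : Bas (cons c) := by
  refine ⟨fun x => if x.1 = 0 then c else x.2.1, fun n => n - 1, fun n => n, ?_, by fun_prop,
    by fun_prop, fun p n => ?_⟩
  · exact RE.cite (RE.cp_eq (by fun_prop) (by fun_prop)) (by fun_prop) (by fun_prop)
  · cases n with
    | zero => rfl
    | succ n => simp

theorem Cfl.pre {R : (ℕ → ℕ) → (ℕ → ℕ) → Prop} (hR : Cfl R) {T : (ℕ → ℕ) → (ℕ → ℕ)} (hT : Bas T) :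
    Cfl fun p y => R (T p) y :=
  (hT.cfl.comp hR).mono fun p _ h => ⟨T p, rfl, h⟩

theorem Cfl.post {R : (ℕ → ℕ) → (ℕ → ℕ) → Prop} (hR : Cfl R) {T : (ℕ → ℕ) → (ℕ → ℕ)} (hT : Bas T) :
    Cfl fun p y => ∃ x, R p x ∧ y = T x := hR.comp hT.cfl

/-- compute `x` from `p`, then `y` from the pair of `p` and `x` -/
theorem Cfl.bind {R S : (ℕ → ℕ) → (ℕ → ℕ) → Prop} (hR : Cfl R) (hS : Cfl S) :
    Cfl fun p y => ∃ x, R p x ∧ S (pr p x) y :=
  ((bas_id.cfl.pair hR).comp hS).mono fun p _ ⟨x, h1, h2⟩ => ⟨pr p x, ⟨p, x, rfl, h1, rfl⟩, h2⟩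

/-! ### Problems -/

/-- A problem: a partial multivalued function on Baire space.  The domain is the set of all `p` such
that `f p` is not empty. -/
abbrev Problem : Type := (ℕ → ℕ) → Set (ℕ → ℕ)

/-- Weihrauch reducibility. -/
def Wle (f g : Problem) : Prop :=
  ∃ Φ Ψ : Set Ax, CE Φ ∧ CE Ψ ∧ ∀ p, (f p).Nonempty → ∃ x, Computes Φ p x ∧ (g x).Nonempty ∧
    ∀ q ∈ g x, ∃ y ∈ f p, Computes Ψ (pr p q) y

theorem Wle.intro {f g : Problem} {R S : (ℕ → ℕ) → (ℕ → ℕ) → Prop} (hR : Cfl R) (hS : Cfl S)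
    (h : ∀ p, (f p).Nonempty → ∃ x, R p x ∧ (g x).Nonempty ∧ ∀ q ∈ g x, ∃ y ∈ f p, S (pr p q) y) :
    Wle f g := by
  obtain ⟨Φ, hΦ, hR⟩ := hR
  obtain ⟨Ψ, hΨ, hS⟩ := hS
  refine ⟨Φ, Ψ, hΦ, hΨ, fun p hp => ?_⟩
  obtain ⟨x, h1, h2, h3⟩ := h p hp
  refine ⟨x, hR _ _ h1, h2, fun q hq => ?_⟩
  obtain ⟨y, h4, h5⟩ := h3 q hq
  exact ⟨y, h4, hS _ _ h5⟩

theorem Wle.elim {f g : Problem} (h : Wle f g) : ∃ R S : (ℕ → ℕ) → (ℕ → ℕ) → Prop, Cfl R ∧ Cfl S ∧
    ∀ p, (f p).Nonempty → ∃ x, R p x ∧ (g x).Nonempty ∧ ∀ q ∈ g x, ∃ y ∈ f p, S (pr p q) y := by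
  obtain ⟨Φ, Ψ, hΦ, hΨ, h⟩ := h
  exact ⟨Computes Φ, Computes Ψ, cfl_of_ce hΦ, cfl_of_ce hΨ, h⟩

theorem Wle.refl (f : Problem) : Wle f f :=
  Wle.intro bas_id.cfl bas_snd.cfl fun p hp => ⟨p, rfl, hp, fun q hq => ⟨q, hq, by simp⟩⟩

theorem Wle.trans {f g h : Problem} (h1 : Wle f g) (h2 : Wle g h) : Wle f h := by
  obtain ⟨R1, S1, hR1, hS1, h1⟩ := h1.elim
  obtain ⟨R2, S2, hR2, hS2, h2⟩ := h2.elim
  -- backward: from `pr p r` compute `x`, `q`, `y`
  have hb : Cfl fun z y => ∃ x, R1 (fst z) x ∧ ∃ q, S2 (pr x (snd z)) q ∧ S1 (pr (fst z) q) y := by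
    have e1 : Cfl fun z x => R1 (fst z) x := hR1.pre bas_fst
    -- on `pr z x`
    have e2 : Cfl fun w q => S2 (pr (snd w) (snd (fst w))) q := by
      refine hS2.pre ?_
      refine ⟨fun x => Nat.pair x.2.1.unpair.2 x.2.1.unpair.1.unpair.2, fun n => n, fun n => n,
        by fun_prop, by fun_prop, by fun_prop, fun _ _ => rfl⟩
    -- on `pr (pr z x) q`
    have e3 : Cfl fun v y => S1 (pr (fst (fst (fst v))) (snd v)) y := by
      refine hS1.pre ?_
      refine ⟨fun x => Nat.pair x.2.1.unpair.1.unpair.1.unpair.1 x.2.1.unpair.2, fun n => n,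
        fun n => n, by fun_prop, by fun_prop, by fun_prop, fun _ _ => rfl⟩
    refine (e1.bind (e2.bind e3)).mono ?_
    rintro z y ⟨x, h3, q, h4, h5⟩
    exact ⟨x, h3, q, by simpa using h4, by simpa using h5⟩
  refine Wle.intro (hR1.comp hR2) hb fun p hp => ?_
  obtain ⟨x, a1, a2, a3⟩ := h1 p hp
  obtain ⟨z, b1, b2, b3⟩ := h2 x a2
  refine ⟨z, ⟨x, a1, b1⟩, b2, fun r hr => ?_⟩
  obtain ⟨q, c1, c2⟩ := b3 r hr
  obtain ⟨y, d1, d2⟩ := a3 q c1
  exact ⟨y, d1, x, by simpa using a1, q, by simpa using c2, by simpa using d2⟩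

/-- The meet of two problems: an instance is a pair of instances, and a solution is a solution of one
of them, together with the information which one it is. -/
def meet (f g : Problem) : Problem := fun w =>
  {y | (f (fst w)).Nonempty ∧ (g (snd w)).Nonempty ∧
    ((y 0 = 0 ∧ tl y ∈ f (fst w)) ∨ (y 0 = 1 ∧ tl y ∈ g (snd w)))}

/-- The totalization of a problem. -/
def Tot (g : Problem) : Problem := fun p => {y | (g p).Nonempty → y ∈ g p}

theorem tot_nonempty (g : Problem) (p : ℕ → ℕ) : (Tot g p).Nonempty := by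
  by_cases h : (g p).Nonempty
  · obtain ⟨y, hy⟩ := h
    exact ⟨y, fun _ => hy⟩
  · exact ⟨p, fun h' => absurd h' h⟩

theorem meet_nonempty {f g : Problem} {w : ℕ → ℕ} :
    (meet f g w).Nonempty ↔ (f (fst w)).Nonempty ∧ (g (snd w)).Nonempty := by
  constructor
  · rintro ⟨y, h1, h2, -⟩
    exact ⟨h1, h2⟩
  · rintro ⟨h1, h2⟩
    obtain ⟨y, hy⟩ := h1
    exact ⟨cons 0 y, ⟨y, hy⟩, h2, Or.inl ⟨rfl, hy⟩⟩

theorem meet_mono {f g f' g' : Problem} (h1 : Wle f f') (h2 : Wle g g') :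
    Wle (meet f g) (meet f' g') := by
  obtain ⟨R1, S1, hR1, hS1, h1⟩ := h1.elim
  obtain ⟨R2, S2, hR2, hS2, h2⟩ := h2.elim
  -- backward: on `pr w r`
  have hP : ComputablePred fun σ : List ℕ => (σ[0]?).map (fun v => v.unpair.2) = some 0 := by
    refine RE.cp_eq ?_ (by fun_prop)
    exact Computable.option_map (f := fun σ : List ℕ => σ[0]?) (g := fun _ v => v.unpair.2)
      (by fun_prop) (by
        show Computable fun x : List ℕ × ℕ => x.2.unpair.2
        fun_prop)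
  have b1 : Cfl fun z y => ∃ a, S1 (pr (fst (fst z)) (tl (snd z))) a ∧ y = cons 0 a := by
    refine (hS1.pre (T := fun z => pr (fst (fst z)) (tl (snd z))) ?_).post (bas_cons 0)
    exact ⟨fun x => Nat.pair x.2.1.unpair.1.unpair.1 x.2.2.unpair.2, fun n => n, fun n => n + 1,
      by fun_prop, by fun_prop, by fun_prop, fun _ _ => rfl⟩
  have b2 : Cfl fun z y => ∃ a, S2 (pr (snd (fst z)) (tl (snd z))) a ∧ y = cons 1 a := by
    refine (hS2.pre (T := fun z => pr (snd (fst z)) (tl (snd z))) ?_).post (bas_cons 1)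
    exact ⟨fun x => Nat.pair x.2.1.unpair.1.unpair.2 x.2.2.unpair.2, fun n => n, fun n => n + 1,
      by fun_prop, by fun_prop, by fun_prop, fun _ _ => rfl⟩
  have hseg : ∀ z : ℕ → ℕ, ((seg z 1)[0]?).map (fun v => v.unpair.2) = some (snd z 0) := by
    intro z
    rw [seg_getElem? z Nat.zero_lt_one]
    rfl
  refine Wle.intro ((hR1.pre bas_fst).pair (hR2.pre bas_snd)) (b1.cases b2 hP 1) fun w hw => ?_
  rw [meet_nonempty] at hw
  obtain ⟨x, c1, c2, c3⟩ := h1 _ hw.1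
  obtain ⟨x', c1', c2', c3'⟩ := h2 _ hw.2
  refine ⟨pr x x', ⟨x, x', c1, c1', rfl⟩, meet_nonempty.2 (by simpa using ⟨c2, c2'⟩), ?_⟩
  rintro r ⟨-, -, ⟨d1, d2⟩ | ⟨d1, d2⟩⟩
  · rw [fst_pr] at d2
    obtain ⟨y, e1, e2⟩ := c3 _ d2
    refine ⟨cons 0 y, ⟨hw.1, hw.2, Or.inl ⟨rfl, e1⟩⟩, Or.inl ⟨?_, y, by simpa using e2, rfl⟩⟩
    rw [hseg, snd_pr, d1]
  · rw [snd_pr] at d2
    obtain ⟨y, e1, e2⟩ := c3' _ d2
    refine ⟨cons 1 y, ⟨hw.1, hw.2, Or.inr ⟨rfl, e1⟩⟩, Or.inr ⟨?_, y, by simpa using e2, rfl⟩⟩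
    rw [hseg, snd_pr, d1]
    simp

theorem meet_le_left (f g : Problem) : Wle (meet f g) f := by
  refine Wle.intro bas_fst.cfl (bas_snd.cfl.post (bas_cons 0)) fun w hw => ?_
  refine ⟨fst w, rfl, (meet_nonempty.1 hw).1, fun q hq => ⟨cons 0 q, ?_, q, by simp, rfl⟩⟩
  exact ⟨(meet_nonempty.1 hw).1, (meet_nonempty.1 hw).2, Or.inl ⟨rfl, hq⟩⟩

theorem meet_le_right (f g : Problem) : Wle (meet f g) g := by
  refine Wle.intro bas_snd.cfl (bas_snd.cfl.post (bas_cons 1)) fun w hw => ?_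
  refine ⟨snd w, rfl, (meet_nonempty.1 hw).2, fun q hq => ⟨cons 1 q, ?_, q, by simp, rfl⟩⟩
  exact ⟨(meet_nonempty.1 hw).1, (meet_nonempty.1 hw).2, Or.inr ⟨rfl, hq⟩⟩

theorem le_meet {f g h : Problem} (h1 : Wle h f) (h2 : Wle h g) : Wle h (meet f g) := by
  obtain ⟨R1, S1, hR1, hS1, h1⟩ := h1.elim
  obtain ⟨R2, S2, hR2, hS2, h2⟩ := h2.elim
  have hP : ComputablePred fun σ : List ℕ => (σ[0]?).map (fun v => v.unpair.2) = some 0 := by
    refine RE.cp_eq ?_ (by fun_prop)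
    exact Computable.option_map (f := fun σ : List ℕ => σ[0]?) (g := fun _ v => v.unpair.2)
      (by fun_prop) (by
        show Computable fun x : List ℕ × ℕ => x.2.unpair.2
        fun_prop)
  have hb : Bas fun z => pr (fst z) (tl (snd z)) :=
    ⟨fun x => Nat.pair x.2.1.unpair.1 x.2.2.unpair.2, fun n => n, fun n => n + 1,
      by fun_prop, by fun_prop, by fun_prop, fun _ _ => rfl⟩
  have hseg : ∀ z : ℕ → ℕ, ((seg z 1)[0]?).map (fun v => v.unpair.2) = some (snd z 0) := by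
    intro z
    rw [seg_getElem? z Nat.zero_lt_one]
    rfl
  refine Wle.intro (hR1.pair hR2) ((hS1.pre hb).cases (hS2.pre hb) hP 1) fun p hp => ?_
  obtain ⟨x, c1, c2, c3⟩ := h1 p hp
  obtain ⟨x', c1', c2', c3'⟩ := h2 p hp
  refine ⟨pr x x', ⟨x, x', c1, c1', rfl⟩, meet_nonempty.2 (by simpa using ⟨c2, c2'⟩), ?_⟩
  rintro r ⟨-, -, ⟨d1, d2⟩ | ⟨d1, d2⟩⟩
  · rw [fst_pr] at d2
    obtain ⟨y, e1, e2⟩ := c3 _ d2
    refine ⟨y, e1, Or.inl ⟨?_, by simpa using e2⟩⟩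
    rw [hseg, snd_pr, d1]
  · rw [snd_pr] at d2
    obtain ⟨y, e1, e2⟩ := c3' _ d2
    refine ⟨y, e1, Or.inr ⟨?_, by simpa using e2⟩⟩
    rw [hseg, snd_pr, d1]
    simp

/-! ### Universal functionals -/

/-- the functionals with index `e` -/
def V (e j : ℕ) : Set Ax := {a | ∃ s, RE.wst (ℕ × Ax) e s (j, a) = true}

theorem V_re : REPred fun x : ℕ × ℕ × Ax => x.2.2 ∈ V x.1 x.2.1 := by
  refine RE.exN (p := fun (x : ℕ × ℕ × Ax) (s : ℕ) => RE.wst (ℕ × Ax) x.1 s (x.2.1, x.2.2) = true) ?_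
  refine RE.of_bool ?_
  exact RE.wst_comp.comp (f := fun p : (ℕ × ℕ) × (ℕ × Ax) => RE.wst (ℕ × Ax) p.1.1 p.1.2 p.2)
    (g := fun x : (ℕ × ℕ × Ax) × ℕ => ((x.1.1, x.2), (x.1.2.1, x.1.2.2))) (by fun_prop)

theorem exists_V {Φ Ψ : Set Ax} (hΦ : CE Φ) (hΨ : CE Ψ) : ∃ e, V e 0 = Φ ∧ V e 1 = Ψ := by
  have h : REPred fun x : ℕ × Ax => (x.1 = 0 ∧ x.2 ∈ Φ) ∨ (x.1 = 1 ∧ x.2 ∈ Ψ) :=
    RE.or (RE.and (RE.eq (by fun_prop) (by fun_prop))
      (RE.comp (p := fun a : Ax => a ∈ Φ) hΦ (by fun_prop)))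
      (RE.and (RE.eq (by fun_prop) (by fun_prop))
      (RE.comp (p := fun a : Ax => a ∈ Ψ) hΨ (by fun_prop)))
  obtain ⟨e, he⟩ := RE.wst_univ h
  refine ⟨e, ?_, ?_⟩
  · ext a
    have := he (0, a)
    simp only [true_and, zero_ne_one, false_and, or_false] at this
    exact this.symm
  · ext a
    have := he (1, a)
    simp only [one_ne_zero, false_and, true_and, false_or] at this
    exact this.symm

/-- the recursion theorem -/
theorem recursion {α : Type*} [Primcodable α] {R : ℕ × α → Prop} (hR : REPred R) :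
    ∃ e, ∀ x, (∃ s, RE.wst α e s x = true) ↔ R (e, x) := by
  have h1 : REPred fun x : Nat.Partrec.Code × ℕ => ∃ a : α, decode x.2 = some a ∧
      R (encode x.1, a) := by
    refine RE.ex (p := fun (x : Nat.Partrec.Code × ℕ) (a : α) => decode x.2 = some a ∧
      R (encode x.1, a)) ?_
    exact RE.and (RE.eq (by fun_prop) (by fun_prop)) (RE.comp hR (by fun_prop))
  have h2 : Partrec₂ fun (c : Nat.Partrec.Code) (n : ℕ) =>
      (Part.assert (∃ a : α, decode n = some a ∧ R (encode c, a)) fun _ => Part.some ()).map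
        fun _ => (0 : ℕ) := by
    have h3 : Partrec fun x : Nat.Partrec.Code × ℕ =>
        (Part.assert (∃ a : α, decode x.2 = some a ∧ R (encode x.1, a))
          fun _ => Part.some ()).map fun _ => (0 : ℕ) :=
      Partrec.map h1 (Computable.const 0).to₂
    exact h3
  obtain ⟨c, hc⟩ := Nat.Partrec.Code.fixed_point₂ h2
  refine ⟨encode c, fun x => ?_⟩
  have h4 : (c.eval (encode x)).Dom ↔ R (encode c, x) := by
    rw [hc]
    simp only [Part.map_Dom]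
    constructor
    · rintro ⟨⟨a, ha, h5⟩, -⟩
      rw [encodek] at ha
      cases ha
      exact h5
    · intro h5
      exact ⟨⟨x, encodek x, h5⟩, trivial⟩
  rw [← h4]
  unfold RE.wst
  rw [Part.dom_iff_mem, Denumerable.ofNat_encode]
  constructor
  · rintro ⟨s, hs⟩
    obtain ⟨y, hy⟩ := Option.isSome_iff_exists.1 hs
    exact ⟨y, Nat.Partrec.Code.evaln_complete.2 ⟨s, hy⟩⟩
  · rintro ⟨y, hy⟩
    obtain ⟨k, hk⟩ := Nat.Partrec.Code.evaln_complete.1 hy
    refine ⟨k, ?_⟩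
    rw [Option.mem_def] at hk
    rw [hk]
    rfl

/-- universality, the input is the index followed by the actual input -/
theorem cfl_V (j : ℕ) : Cfl fun w y => Computes (V (w 0) j) (tl w) y := by
  refine ⟨{a | ∃ (e : ℕ) (τ : List ℕ), a.1 = e :: τ ∧ (τ, a.2) ∈ V e j}, ?_, ?_⟩
  · refine RE.exN (p := fun (a : Ax) (e : ℕ) => ∃ τ : List ℕ, a.1 = e :: τ ∧ (τ, a.2) ∈ V e j) ?_
    refine RE.ex (p := fun (a : Ax × ℕ) (τ : List ℕ) => a.1.1 = a.2 :: τ ∧
      (τ, a.1.2) ∈ V a.2 j) ?_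
    refine RE.and (RE.eq (by fun_prop) (by fun_prop)) ?_
    exact RE.comp (p := fun x : ℕ × ℕ × Ax => x.2.2 ∈ V x.1 x.2.1) V_re
      (f := fun a : (Ax × ℕ) × List ℕ => (a.1.2, j, (a.2, a.1.1.2))) (by fun_prop)
  · intro w y h n m
    rw [h n m]
    constructor
    · rintro ⟨k, hk⟩
      refine ⟨k + 1, w 0, seg (tl w) k, ?_, hk⟩
      show seg w (k + 1) = _
      rw [← seg_cons, cons_tl]
    · rintro ⟨k, e, τ, h1, h2⟩
      have h1' : seg w k = e :: τ := h1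
      cases k with
      | zero => simp [seg] at h1'
      | succ k =>
        rw [← cons_tl w, seg_cons] at h1'
        obtain ⟨rfl, rfl⟩ := List.cons.inj h1'
        exact ⟨k, h2⟩

/-- The problem of the applications of `f`: an instance is `e, p`, where `e` is an index of two
functionals, the first maps `p` to an instance of `f` and the second computes a point from `p` and
each solution of this instance; this point is the solution. -/
def U (f : Problem) : Problem := fun w =>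
  {y | ∃ x, Computes (V (w 0) 0) (tl w) x ∧
    (∀ q ∈ f x, ∃ y', Computes (V (w 0) 1) (pr (tl w) q) y') ∧
    ∃ q ∈ f x, Computes (V (w 0) 1) (pr (tl w) q) y}

theorem U_le (f : Problem) : Wle (U f) f := by
  -- backward: on `pr w q`
  have hb : Cfl fun z y => Computes (V (fst z 0) 1) (pr (tl (fst z)) (snd z)) y := by
    let T : (ℕ → ℕ) → (ℕ → ℕ) := fun z => cons (fst z 0) (pr (tl (fst z)) (snd z))
    have hT : Bas T := by
      refine ⟨fun x => if x.1 = 0 then x.2.1.unpair.1 else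
        Nat.pair x.2.1.unpair.1 x.2.2.unpair.2, fun n => n, fun n => n - 1, ?_, by fun_prop,
        by fun_prop, fun p n => ?_⟩
      · exact RE.cite (RE.cp_eq (by fun_prop) (by fun_prop)) (by fun_prop) (by fun_prop)
      · cases n with
        | zero => rfl
        | succ n => simp [T, pr, tl, fst, snd]
    exact (cfl_V 1).pre hT
  refine Wle.intro (cfl_V 0) hb ?_
  rintro w ⟨y, x, h1, h2, q, h3, -⟩
  refine ⟨x, h1, ⟨q, h3⟩, fun q' hq' => ?_⟩
  obtain ⟨y', hy'⟩ := h2 q' hq'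
  exact ⟨y', ⟨x, h1, h2, q', hq', hy'⟩, by simpa using hy'⟩

theorem mem_U_of_le {f g : Problem} (h : Wle g f) : ∃ e, ∀ p, (g p).Nonempty →
    (U f (cons e p)).Nonempty ∧ ∀ y ∈ U f (cons e p), y ∈ g p := by
  obtain ⟨Φ, Ψ, hΦ, hΨ, h⟩ := h
  obtain ⟨e, he0, he1⟩ := exists_V hΦ hΨ
  refine ⟨e, fun p hp => ?_⟩
  obtain ⟨x, h1, ⟨q, hq⟩, h3⟩ := h p hp
  constructor
  · obtain ⟨y, hy, hy'⟩ := h3 q hq
    refine ⟨y, x, ?_, fun q' hq' => ?_, q, hq, ?_⟩
    · simpa [he0] using h1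
    · obtain ⟨y', -, hy'⟩ := h3 q' hq'
      exact ⟨y', by simpa [he1] using hy'⟩
    · simpa [he1] using hy'
  · rintro y ⟨x', h4, -, q', hq', h5⟩
    simp only [cons_zero, tl_cons, he0, he1] at h4 h5
    obtain rfl := h1.unique h4
    obtain ⟨y', h6, h7⟩ := h3 q' hq'
    rw [h5.unique h7]
    exact h6

theorem le_U (f : Problem) : Wle f (U f) := by
  obtain ⟨e, he⟩ := mem_U_of_le (Wle.refl f)
  refine Wle.intro (bas_cons e).cfl bas_snd.cfl fun p hp => ?_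
  obtain ⟨h1, h2⟩ := he p hp
  exact ⟨_, rfl, h1, fun q hq => ⟨q, h2 q hq, by simp⟩⟩

theorem tot_le_tot_U {f g : Problem} (h : Wle g f) : Wle (Tot g) (Tot (U f)) := by
  obtain ⟨e, he⟩ := mem_U_of_le h
  refine Wle.intro (bas_cons e).cfl bas_snd.cfl fun p _ => ?_
  refine ⟨_, rfl, tot_nonempty _ _, fun q hq => ⟨q, fun hp => ?_, by simp⟩⟩
  obtain ⟨h1, h2⟩ := he p hp
  exact h2 q (hq h1)

/-- Weihrauch equivalence. -/
def Weq (f g : Problem) : Prop := Wle f g ∧ Wle g f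

/-- `h` is a totalizing jump of `f`: its Weihrauch degree is the largest of the degrees of the
totalizations of the problems which are equivalent to `f`. -/
def IsTJ (f h : Problem) : Prop :=
  (∃ g, Weq g f ∧ Weq h (Tot g)) ∧ ∀ g, Weq g f → Wle (Tot g) h

theorem isTJ_U (f : Problem) : IsTJ f (Tot (U f)) :=
  ⟨⟨U f, ⟨U_le f, le_U f⟩, Wle.refl _, Wle.refl _⟩, fun _ hg => tot_le_tot_U hg.1⟩

end Pool.Agent.R624.WR
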